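import Pool.Agent.R481.S2.Sums2

/-!
# The limsup of the minimal number of distinct entries in solutions of `σ₂ = σₙ`

We prove that `limsup M(n) = 4`, where `M(n)` is the least number of distinct entries of an
`n`-tuple of positive integers with `σ₂ = σₙ`.
-/

namespace Pool.Agent.Results.MP_2b461e_nt.LimsupEqFour

open Finset Pool.Agent.R481.S2

/-- The `k`-th elementary symmetric polynomial of the entries of the tuple `x`. -/
def sigma {n : ℕ} (k : ℕ) (x : Fin n → ℕ) : ℕ := ∑ t ∈ powersetCard k univ, ∏ i ∈ t, x i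

/-- The solution set: non-decreasing `n`-tuples of positive integers with `σ₂ = σₙ`. -/
def S (n : ℕ) : Set (Fin n → ℕ) := {x | (∀ i, 0 < x i) ∧ Monotone x ∧ sigma 2 x = sigma n x}

/-- The least number of distinct entries of a solution. -/
noncomputable def M (n : ℕ) : ℕ := sInf {k | ∃ x ∈ S n, (univ.image x).card = k}

lemma sigma_eq_esymm {n : ℕ} (k : ℕ) (x : Fin n → ℕ) : sigma k x = (univ.val.map x).esymm k := by
  unfold sigma
  rw [Finset.esymm_map_val]

lemma sigma_self {n : ℕ} (x : Fin n → ℕ) : sigma n x = ∏ i, x i := by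
  unfold sigma
  have : powersetCard n (univ : Finset (Fin n)) = {univ} := by
    have h := powersetCard_self (univ : Finset (Fin n))
    rwa [card_univ, Fintype.card_fin] at h
  rw [this, sum_singleton]

lemma newton_two (s : Multiset ℕ) : s.sum ^ 2 = 2 * s.esymm 2 + (s.map (· ^ 2)).sum := by
  have e0 : ∀ s : Multiset ℕ, s.esymm 0 = 1 := fun s => by simp [Multiset.esymm]
  have ec : ∀ (a : ℕ) (s : Multiset ℕ) (k : ℕ),
      (a ::ₘ s).esymm (k + 1) = s.esymm (k + 1) + a * s.esymm k := fun a s k => by
    simp [Multiset.esymm, Multiset.powersetCard_cons, Multiset.map_map, Multiset.sum_map_mul_left]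
  have ez : ∀ k : ℕ, (0 : Multiset ℕ).esymm (k + 1) = 0 := fun k => by
    simp [Multiset.esymm, Multiset.powersetCard_zero_right]
  have e1 : ∀ s : Multiset ℕ, s.esymm 1 = s.sum := by
    intro s
    induction s using Multiset.induction with
    | empty => simp [ez 0]
    | cons a s ih =>
      have := ec a s 0
      rw [zero_add] at this
      rw [this, ih, e0, Multiset.sum_cons]
      ring
  induction s using Multiset.induction with
  | empty => simp [ez 1]
  | cons a s ih =>
    have := ec a s 1
    norm_num at this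
    rw [this, e1, Multiset.sum_cons, Multiset.map_cons, Multiset.sum_cons]
    have h2 : (a + s.sum) ^ 2 = a ^ 2 + 2 * (a * s.sum) + s.sum ^ 2 := by ring
    rw [h2, ih]
    ring

/-- A multiset of cardinality `n` is the multiset of entries of a non-decreasing tuple. -/
lemma exists_tuple {n : ℕ} (s : Multiset ℕ) (hs : s.card = n) :
    ∃ f : Fin n → ℕ, Monotone f ∧ (univ : Finset (Fin n)).val.map f = s := by
  subst hs
  set l := s.sort (· ≤ ·) with hl
  have hlen : l.length = s.card := by rw [hl, Multiset.length_sort]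
  have hsorted : l.Pairwise (· ≤ ·) := Multiset.pairwise_sort _ _
  refine ⟨fun i => l.get (i.cast hlen.symm), ?_, ?_⟩
  · intro i j hij
    rcases hij.lt_or_eq with h | h
    · exact List.pairwise_iff_get.mp hsorted _ _ (by simpa using h)
    · rw [h]
  · rw [Fin.univ_val_map]
    have h1 : (List.ofFn fun i : Fin s.card => l.get (i.cast hlen.symm)) = l := by
      apply List.ext_get
      · simp [hlen]
      · intro k h1 h2
        simp
    rw [h1, hl, Multiset.sort_eq]

lemma exists_sol (n : ℕ) (hn : 3 ≤ n) : ∃ f ∈ S n, (univ.image f).card ≤ 4 := by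
  obtain ⟨u, hu⟩ : ∃ u, n * (3 * n - 5) = 2 * u := by
    have : Even (n * (3 * n - 5)) := by
      rcases Nat.even_or_odd n with h | h
      · exact h.mul_right _
      · apply Even.mul_left
        obtain ⟨k, hk⟩ := h
        exact ⟨3 * k - 1, by omega⟩
    obtain ⟨u, hu⟩ := this
    exact ⟨u, by omega⟩
  set s : Multiset ℕ := Multiset.replicate (n - 3) 1 + {2, n, u} with hs
  have hcard : s.card = n := by
    rw [hs]; simp; omega
  obtain ⟨f, hf, hfs⟩ := exists_tuple s hcard
  have hupos : 0 < u := by
    have : 0 < n * (3 * n - 5) := Nat.mul_pos (by omega) (by omega)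
    omega
  have hmem : f ∈ S n := by
    refine ⟨?_, hf, ?_⟩
    · intro i
      have : f i ∈ s := by
        rw [← hfs]
        exact Multiset.mem_map_of_mem f (mem_univ_val i)
      rw [hs] at this
      simp only [Multiset.mem_add, Multiset.mem_replicate, Multiset.insert_eq_cons,
        Multiset.mem_cons, Multiset.mem_singleton] at this
      rcases this with ⟨-, h⟩ | h | h | h <;> omega
    · rw [sigma_self, sigma_eq_esymm, hfs]
      have h1 : ∏ i, f i = s.prod := by rw [← hfs]; rfl
      rw [h1]
      have h2 := newton_two s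
      have h3 : s.sum = (n - 3) + (2 + n + u) := by
        rw [hs]; simp [add_assoc]; omega
      have h4 : s.prod = 2 * n * u := by
        rw [hs]; simp [mul_assoc]
      have h5 : (s.map (· ^ 2)).sum = (n - 3) + (4 + n ^ 2 + u ^ 2) := by
        rw [hs]; simp [add_assoc]; omega
      rw [h3, h5] at h2
      rw [h4]
      obtain ⟨k, rfl⟩ := Nat.exists_eq_add_of_le hn
      have h6 : 3 * (3 + k) - 5 = 4 + 3 * k := by omega
      have h7 : 3 + k - 3 = k := by omega
      rw [h6] at hu
      rw [h7] at h2
      zify at hu h2 ⊢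
      have h8 : 2 * ((s.esymm 2 : ℕ) : ℤ) = 2 * (2 * (3 + k) * u) := by
        linear_combination (-1) * h2 + hu
      linarith
  have hle : (univ.image f).card ≤ 4 := by
    have h1 : univ.image f ⊆ {1, 2, n, u} := by
      intro v hv
      obtain ⟨i, -, rfl⟩ := mem_image.mp hv
      have : f i ∈ s := by
        rw [← hfs]
        exact Multiset.mem_map_of_mem f (mem_univ_val i)
      rw [hs] at this
      simp only [Multiset.mem_add, Multiset.mem_replicate, Multiset.insert_eq_cons,
        Multiset.mem_cons, Multiset.mem_singleton] at this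
      simp only [mem_insert, mem_singleton]
      rcases this with ⟨-, h⟩ | h | h | h <;> omega
    exact (card_le_card h1).trans card_le_four
  exact ⟨f, hmem, hle⟩

lemma M_le_four (n : ℕ) (hn : 3 ≤ n) : M n ≤ 4 := by
  obtain ⟨f, hf, hle⟩ := exists_sol n hn
  have h1 : M n ≤ (univ.image f).card := Nat.sInf_le ⟨f, hf, rfl⟩
  exact h1.trans hle

/-- Without entries equal to one there is no solution. -/
lemma exists_one {n : ℕ} (hn : 6 ≤ n) {f : Fin n → ℕ} (hf : f ∈ S n) : ∃ i, f i = 1 := by
  by_contra hcon
  push Not at hcon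
  have h2 : ∀ i, 2 ≤ f i := fun i => by
    have := hf.1 i
    have := hcon i
    omega
  have h3 := hf.2.2
  rw [sigma_self] at h3
  set P := ∏ i, f i with hP
  have hPpos : 0 < P := prod_pos fun i _ => hf.1 i
  have h4 : sigma 2 f * 2 ^ (n - 2) ≤ n.choose 2 * P := by
    unfold sigma
    rw [sum_mul]
    have h5 : ∀ t ∈ powersetCard 2 (univ : Finset (Fin n)), (∏ i ∈ t, f i) * 2 ^ (n - 2) ≤ P := by
      intro t ht
      rw [mem_powersetCard] at ht
      have h6 : 2 ^ (n - 2) ≤ ∏ i ∈ tᶜ, f i := by
        have h7 : tᶜ.card = n - 2 := by rw [card_compl, ht.2, Fintype.card_fin]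
        rw [← h7]
        exact pow_card_le_prod _ _ _ fun i _ => h2 i
      calc (∏ i ∈ t, f i) * 2 ^ (n - 2) ≤ (∏ i ∈ t, f i) * ∏ i ∈ tᶜ, f i :=
            Nat.mul_le_mul_left _ h6
        _ = P := prod_mul_prod_compl t f
    calc ∑ t ∈ powersetCard 2 univ, (∏ i ∈ t, f i) * 2 ^ (n - 2)
        ≤ ∑ t ∈ powersetCard 2 (univ : Finset (Fin n)), P := sum_le_sum h5
      _ = _ := by rw [sum_const, card_powersetCard, card_univ, Fintype.card_fin, smul_eq_mul]
  have h8 : n.choose 2 < 2 ^ (n - 2) := by
    clear * - hn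
    induction n, hn using Nat.le_induction with
    | base => decide
    | succ n hn ih =>
      have hc : (n + 1).choose 2 = n + n.choose 2 := by
        rw [Nat.choose_succ_succ' n 1, Nat.choose_one_right]
      rw [hc]
      have h9 : n < 2 ^ (n - 2) + 1 := by
        clear ih hc
        induction n, hn using Nat.le_induction with
        | base => norm_num
        | succ n hn ih =>
          have : n + 1 - 2 = (n - 2) + 1 := by omega
          rw [this, pow_succ]
          have : 1 ≤ 2 ^ (n - 2) := Nat.one_le_two_pow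
          omega
      have : n + 1 - 2 = (n - 2) + 1 := by omega
      rw [this, pow_succ]
      omega
  rw [h3, mul_comm] at h4
  have := Nat.le_of_mul_le_mul_right h4 hPpos
  omega

/-- The exceptional set. -/
def Bad : Set ℕ :=
  ((⋃ q : ℕ × ℕ, setA (q.1 + 3) (q.2 + 2)) ∪
    (⋃ q : (ℕ × ℕ) × (ℕ × ℕ), setBC (q.1.1 + 3) (q.2.1 + 3) (q.1.2 + 2) (q.2.2 + 2))) ∪
  ((⋃ q : ℕ × ℕ, setC (q.1 + 3) (q.2 + 2)) ∪ (⋃ X : ℕ, setD (X + 1)))

lemma Z_Bad : Z Bad ≠ ⊤ := by
  unfold Bad
  refine ne_top_of_le_ne_top ?_ (Z_union _ _)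
  refine ENNReal.add_ne_top.mpr ⟨?_, ?_⟩
  · refine ne_top_of_le_ne_top ?_ (Z_union _ _)
    exact ENNReal.add_ne_top.mpr ⟨Z_A, Z_B⟩
  · refine ne_top_of_le_ne_top ?_ (Z_union _ _)
    exact ENNReal.add_ne_top.mpr ⟨Z_C, Z_D⟩

/-- All solutions with `a ≥ b ≥ 1` are exceptional. -/
lemma mem_Bad_of_le {p m a b x y : ℕ} (hp : p.Prime) (hp8 : p % 8 = 7) (hb : 1 ≤ b) (hba : b ≤ a)
    (hm : 1 ≤ m) (hx : 2 ≤ x) (hy : 2 ≤ y) (hn : m + a + b = p + 2) (h : Eqn m a b x y) :
    p ∈ Bad := by
  have h7 : 7 ≤ p := by omega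
  rcases Nat.lt_or_ge b 2 with hb1 | hb2
  · have hb1 : b = 1 := by omega
    subst hb1
    rcases Nat.lt_or_ge a 3 with ha | ha
    · rcases (by omega : a = 1 ∨ a = 2) with rfl | rfl
      · exact absurd h (not_11 hm hx hy)
      · obtain ⟨X, D, h1, h2, h3⟩ := type21 hp h7 (by omega) hx hy h
        right; right
        have hX : 1 ≤ X := by
          rcases Nat.eq_zero_or_pos X with h0 | h0
          · subst h0; omega
          · exact h0
        rw [Set.mem_iUnion]
        refine ⟨X - 1, ?_⟩
        rw [Nat.sub_add_cancel hX]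
        exact ⟨h7, D, h1, h2, h3⟩
    · obtain ⟨D, h1, h2, h3⟩ := typeA_dvd ha hm hx hy h
      left; left
      rw [Set.mem_iUnion]
      refine ⟨(a - 3, x - 2), ?_⟩
      simp only [Nat.sub_add_cancel ha, Nat.sub_add_cancel hx]
      refine ⟨m, D, h1, h2, ?_, by omega⟩
      have h4 := typeA_size ha hx h1 h3
      have h5 : m + a + 2 = p + 3 := by omega
      rwa [h5] at h4
  · rcases Nat.lt_or_ge b 3 with hb3 | hb3
    · have hb' : b = 2 := by omega
      subst hb'
      rcases Nat.lt_or_ge a 3 with ha | ha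
      · have ha' : a = 2 := by omega
        subst ha'
        exact absurd h (not_22 hp8 (by omega) hx hy)
      · right; left
        rw [Set.mem_iUnion]
        refine ⟨(a - 3, x - 2), ?_⟩
        simp only [Nat.sub_add_cancel ha, Nat.sub_add_cancel hx]
        unfold setC
        simp only [Set.mem_iUnion]
        exact ⟨y, hy, m, h.symm, by omega⟩
    · left; right
      rw [Set.mem_iUnion]
      have ha : 3 ≤ a := hb3.trans hba
      refine ⟨((a - 3, x - 2), (b - 3, y - 2)), ?_⟩
      simp only [Nat.sub_add_cancel ha, Nat.sub_add_cancel hx, Nat.sub_add_cancel hb3,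
        Nat.sub_add_cancel hy]
      exact ⟨m, h, by omega⟩

lemma mem_Bad {p m a b x y : ℕ} (hp : p.Prime) (hp8 : p % 8 = 7)
    (hm : 1 ≤ m) (hx : 2 ≤ x) (hy : 2 ≤ y) (hn : m + a + b = p + 2) (h : Eqn m a b x y) :
    p ∈ Bad := by
  wlog hba : b ≤ a generalizing a b x y with H
  · exact H hy hx (by omega) h.symm (by omega)
  rcases Nat.eq_zero_or_pos b with hb | hb
  · subst hb
    have h7 : 7 ≤ p := by omega
    rcases Nat.lt_or_ge a 2 with ha | ha
    · exfalso
      unfold Eqn at h
      rcases (by omega : a = 0 ∨ a = 1) with rfl | rfl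
      · have : m = p + 2 := by omega
        subst this
        simp only [pow_zero, zero_mul, add_zero, mul_one] at h
        nlinarith
      · have : m = p + 1 := by omega
        subst this
        simp only [pow_zero, zero_mul, add_zero, mul_one, pow_one, one_mul] at h
        nlinarith
    · refine mem_Bad_of_le (a := a - 1) (b := 1) (x := x) (y := x) hp hp8 le_rfl (by omega) hm hx hx
        (by omega) ?_
      unfold Eqn at h ⊢
      obtain ⟨d, rfl⟩ := Nat.exists_eq_add_of_le ha
      have h1 : 2 + d - 1 = d + 1 := by omega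
      rw [h1]
      have h2 : m + (d + 1) * x + 1 * x = m + (2 + d) * x + 0 * y := by ring
      rw [h2, h]
      ring
  · exact mem_Bad_of_le hp hp8 hb hba hm hx hy hn h

/-- A finite set with at most two elements, all at least two, is contained in a pair. -/
lemma exists_pair (T : Finset ℕ) (hT : T.card ≤ 2) (h2 : ∀ t ∈ T, 2 ≤ t) :
    ∃ x y : ℕ, 2 ≤ x ∧ 2 ≤ y ∧ x ≠ y ∧ T ⊆ {x, y} := by
  rcases (by omega : T.card = 0 ∨ T.card = 1 ∨ T.card = 2) with h | h | h
  · rw [card_eq_zero] at h
    subst h
    exact ⟨2, 3, by norm_num, by norm_num, by norm_num, by simp⟩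
  · rw [card_eq_one] at h
    obtain ⟨x, rfl⟩ := h
    have := h2 x (by simp)
    exact ⟨x, x + 1, this, by omega, by omega, by simp⟩
  · rw [card_eq_two] at h
    obtain ⟨x, y, hxy, rfl⟩ := h
    exact ⟨x, y, h2 x (by simp), h2 y (by simp), hxy, subset_rfl⟩

lemma four_le_M {p : ℕ} (hp : p.Prime) (hp8 : p % 8 = 7) (hpB : p ∉ Bad) : 4 ≤ M (p + 2) := by
  have h7 : 7 ≤ p := by omega
  unfold M
  apply le_csInf
  · obtain ⟨f, hf, -⟩ := exists_sol (p + 2) (by omega)
    exact ⟨_, f, hf, rfl⟩
  · rintro k ⟨f, hf, rfl⟩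
    by_contra hlt
    push Not at hlt
    obtain ⟨i₀, hi₀⟩ := exists_one (by omega) hf
    set s := (univ : Finset (Fin (p + 2))).val.map f with hs
    have hcard : s.card = p + 2 := by rw [hs]; simp
    set T := (univ.image f).erase 1 with hT
    have h1mem : 1 ∈ univ.image f := mem_image.mpr ⟨i₀, mem_univ _, hi₀⟩
    have hTc : T.card ≤ 2 := by rw [hT, card_erase_of_mem h1mem]; omega
    have hT2 : ∀ t ∈ T, 2 ≤ t := by
      intro t ht
      rw [hT, mem_erase] at ht
      obtain ⟨i, -, rfl⟩ := mem_image.mp ht.2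
      have := hf.1 i
      have := ht.1
      omega
    obtain ⟨x, y, hx, hy, hxy, hTxy⟩ := exists_pair T hTc hT2
    -- decomposition of the multiset
    have hdec : s = Multiset.replicate (s.count 1) 1 + Multiset.replicate (s.count x) x
        + Multiset.replicate (s.count y) y := by
      ext v
      rw [Multiset.count_add, Multiset.count_add, Multiset.count_replicate,
        Multiset.count_replicate, Multiset.count_replicate]
      by_cases h1 : v = 1
      · subst h1
        simp [show x ≠ 1 by omega, show y ≠ 1 by omega]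
      · by_cases h2 : v = x
        · subst h2
          simp [show (1 : ℕ) ≠ v by omega, hxy.symm]
        · by_cases h3 : v = y
          · subst h3
            simp [show (1 : ℕ) ≠ v by omega, hxy]
          · have h4 : v ∉ s := by
              intro hv
              rw [hs, Multiset.mem_map] at hv
              obtain ⟨i, -, rfl⟩ := hv
              have h5 : f i ∈ T := by
                rw [hT, mem_erase]
                exact ⟨h1, mem_image.mpr ⟨i, mem_univ _, rfl⟩⟩
              have := hTxy h5
              simp only [mem_insert, mem_singleton] at this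
              tauto
            rw [Multiset.count_eq_zero_of_notMem h4]
            simp [Ne.symm h1, Ne.symm h2, Ne.symm h3]
    set m := s.count 1 with hm
    set a := s.count x with ha
    set b := s.count y with hb
    have hm1 : 1 ≤ m := by
      rw [hm]
      apply Multiset.one_le_count_iff_mem.mpr
      rw [hs, Multiset.mem_map]
      exact ⟨i₀, mem_univ_val _, hi₀⟩
    have hcard2 : m + a + b = p + 2 := by
      rw [← hcard, hdec]
      simp
    have heq : Eqn m a b x y := by
      have h1 := newton_two s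
      have h2 := hf.2.2
      rw [sigma_self, sigma_eq_esymm, ← hs] at h2
      have h3 : ∏ i, f i = s.prod := rfl
      rw [h3] at h2
      rw [h2] at h1
      have h4 : s.sum = m + a * x + b * y := by
        rw [hdec]; simp
      have h5 : s.prod = x ^ a * y ^ b := by
        rw [hdec]; simp
      have h6 : (s.map (· ^ 2)).sum = m + a * x ^ 2 + b * y ^ 2 := by
        rw [hdec]; simp
      rw [h4, h5, h6] at h1
      exact h1
    exact hpB (mem_Bad hp hp8 hm1 hx hy hcard2 heq)

/-- There are arbitrarily large `n` with `M(n) = 4`. -/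
lemma exists_M_eq_four (N : ℕ) : ∃ n, N ≤ n ∧ M n = 4 := by
  obtain ⟨p, hpN, hp, hp8, hpB⟩ := exists_prime_notMem Z_Bad N
  have h7 : 7 ≤ p := by omega
  exact ⟨p + 2, by omega, le_antisymm (M_le_four _ (by omega)) (four_le_M hp hp8 hpB)⟩

/-- **The limsup of `M(n)` is four**: `M(n) ≤ 4` for all `n ≥ 3` and `M(n) = 4` for infinitely
many `n`. -/
theorem result :
    Filter.limsup (fun n : ℕ => ((M n : ℕ) : ℕ∞)) Filter.atTop = 4 ∧
      (∀ n, 3 ≤ n → M n ≤ 4) ∧ {n : ℕ | M n = 4}.Infinite := by
  refine ⟨le_antisymm ?_ ?_, M_le_four, ?_⟩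
  · apply Filter.limsup_le_of_le (by isBoundedDefault)
    filter_upwards [Filter.eventually_ge_atTop 3] with n hn
    exact_mod_cast M_le_four n hn
  · apply Filter.le_limsup_of_frequently_le
    · rw [Filter.frequently_atTop]
      intro N
      obtain ⟨n, hn, hM⟩ := exists_M_eq_four N
      exact ⟨n, hn, by rw [hM]; norm_num⟩
    · isBoundedDefault
  · rw [Set.infinite_iff_exists_gt]
    intro N
    obtain ⟨n, hn, hM⟩ := exists_M_eq_four (N + 1)
    exact ⟨n, hM, by omega⟩

end Pool.Agent.Results.MP_2b461e_nt.LimsupEqFour
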